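import Pool.Agent.X159.VVI

/-!
# A bounded disconnected Pareto solution set of a monotone vector variational inequality

Negative answer to Q1, with `n = 4`, `m = 2`, a compact convex set `K` and two affine maps.
Coordinates `(s, h, z, w)`; `K = {0 ≤ s ≤ 1, 0 ≤ h ≤ 1, z² ≤ w ≤ 1}`,
`F₁ = (0, h, 0, 1)`, `F₂ = (-h + 2z, s - 1, -(2 + 2s), 0)`.
The points `(1, 0, 0, 0)` and `(0, 1, 1, 1)` are Pareto solutions, and no point of `K` with
`0 < s < 1` is one.
-/

set_option autoImplicit false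

namespace Pool.Agent.Results.MP_177738_an.BoundedDisconnected

open Pool.Agent.X159.VVI

/-- The compact convex set. -/
def K : Set (E 4) :=
  {x | 0 ≤ x 0 ∧ x 0 ≤ 1 ∧ 0 ≤ x 1 ∧ x 1 ≤ 1 ∧ (x 2) ^ 2 ≤ x 3 ∧ x 3 ≤ 1}

/-- The two maps. -/
noncomputable def F : Fin 2 → E 4 → E 4 :=
  ![fun x => !₂[0, x 1, 0, 1], fun x => !₂[-(x 1) + 2 * x 2, x 0 - 1, -(2 + 2 * x 0), 0]]

lemma inner_four (a b : E 4) :
    inner ℝ a b = a 0 * b 0 + a 1 * b 1 + a 2 * b 2 + a 3 * b 3 := by
  simp [PiLp.inner_apply, Fin.sum_univ_four]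
  ring

lemma inner_F0 (x u : E 4) : inner ℝ (F 0 x) u = x 1 * u 1 + u 3 := by
  rw [inner_four]; simp [F]

lemma inner_F1 (x u : E 4) : inner ℝ (F 1 x) u =
    (-(x 1) + 2 * x 2) * u 0 + (x 0 - 1) * u 1 - (2 + 2 * x 0) * u 2 := by
  rw [inner_four]; simp [F]; ring

lemma K_closed : IsClosed K := by
  have h : ∀ i : Fin 4, Continuous (fun x : E 4 => x i) := fun i => by fun_prop
  unfold K
  refine IsClosed.inter (isClosed_le continuous_const (h 0)) ?_
  refine IsClosed.inter (isClosed_le (h 0) continuous_const) ?_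
  refine IsClosed.inter (isClosed_le continuous_const (h 1)) ?_
  refine IsClosed.inter (isClosed_le (h 1) continuous_const) ?_
  exact IsClosed.inter (isClosed_le ((h 2).pow 2) (h 3)) (isClosed_le (h 3) continuous_const)

lemma K_bounded : Bornology.IsBounded K := by
  rw [Metric.isBounded_iff_subset_closedBall 0]
  refine ⟨2, fun x hx => ?_⟩
  obtain ⟨h1, h2, h3, h4, h5, h6⟩ := hx
  rw [mem_closedBall_zero_iff, EuclideanSpace.norm_eq]
  apply Real.sqrt_le_iff.2
  refine ⟨by norm_num, ?_⟩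
  simp only [Real.norm_eq_abs, sq_abs, Fin.sum_univ_four]
  nlinarith [sq_nonneg (x 2)]

lemma K_compact : IsCompact K := Metric.isCompact_of_isClosed_isBounded K_closed K_bounded

lemma K_convex : Convex ℝ K := by
  intro x hx y hy a b ha hb hab
  obtain ⟨h1, h2, h3, h4, h5, h6⟩ := hx
  obtain ⟨k1, k2, k3, k4, k5, k6⟩ := hy
  have hb' : b = 1 - a := by linarith
  have hcoord : ∀ i : Fin 4, (a • x + b • y) i = a * x i + b * y i := fun i => by simp
  simp only [K, Set.mem_ofPred_eq, hcoord]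
  refine ⟨by positivity, ?_, by positivity, ?_, ?_, ?_⟩
  · nlinarith
  · nlinarith
  · have : (a * x 2 + b * y 2) ^ 2 ≤ a * (x 2) ^ 2 + b * (y 2) ^ 2 := by
      subst hb'
      nlinarith [mul_nonneg ha hb, sq_nonneg (x 2 - y 2), mul_nonneg (mul_nonneg ha hb) (sq_nonneg (x 2 - y 2))]
    nlinarith
  · nlinarith

lemma F_cont (l : Fin 2) : Continuous (F l) := by
  have h : ∀ i : Fin 4, Continuous (fun x : E 4 => x i) := fun i => by fun_prop
  fin_cases l
  · simp only [F, Fin.zero_eta, Fin.isValue, Matrix.cons_val_zero]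
    refine (PiLp.continuous_toLp 2 _).comp (continuous_pi fun i => ?_)
    fin_cases i <;> simp <;> fun_prop
  · simp only [F, Fin.mk_one, Fin.isValue, Matrix.cons_val_one, Matrix.cons_val_fin_one]
    refine (PiLp.continuous_toLp 2 _).comp (continuous_pi fun i => ?_)
    fin_cases i <;> simp <;> fun_prop

lemma F_mono (l : Fin 2) : MonoOn K (F l) := by
  intro x _ y _
  fin_cases l
  · show 0 ≤ inner ℝ (F 0 y - F 0 x) (y - x)
    rw [inner_sub_left, inner_F0, inner_F0]
    simp only [PiLp.sub_apply]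
    nlinarith [sq_nonneg (y 1 - x 1)]
  · show 0 ≤ inner ℝ (F 1 y - F 1 x) (y - x)
    rw [inner_sub_left, inner_F1, inner_F1]
    simp only [PiLp.sub_apply]
    nlinarith

lemma not_sol {x : E 4} (hx : x ∈ Sol K F) : ¬ (0 < x 0 ∧ x 0 < 1) := by
  rintro ⟨hs0, hs1⟩
  obtain ⟨⟨h1, h2, h3, h4, h5, h6⟩, hP⟩ := hx
  have key : ∀ y ∈ K, 0 ≤ inner ℝ (F 0 x) (x - y) → 0 ≤ inner ℝ (F 1 x) (x - y) →
      inner ℝ (F 0 x) (x - y) = 0 ∧ inner ℝ (F 1 x) (x - y) = 0 := by
    intro y hy h0 h1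
    by_contra hcon
    refine hP y hy ⟨fun l => ?_, ?_⟩
    · fin_cases l
      · exact h0
      · exact h1
    · rcases not_and_or.1 hcon with h | h
      · exact ⟨0, h⟩
      · exact ⟨1, h⟩
  simp only [inner_F0, inner_F1, PiLp.sub_apply] at key
  -- step 1: w = z²
  have hw : x 3 = (x 2) ^ 2 := by
    by_contra hne
    have hlt : (x 2) ^ 2 < x 3 := lt_of_le_of_ne h5 (Ne.symm hne)
    have := key !₂[x 0, x 1, x 2, (x 2) ^ 2]
      ⟨h1, h2, h3, h4, le_refl _, (show (x 2) ^ 2 ≤ 1 by linarith)⟩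
      (by simp; linarith) (by simp)
    simp at this
    linarith
  -- step 2: z ≥ 0
  have hz : 0 ≤ x 2 := by
    by_contra hne
    push Not at hne
    have := key !₂[x 0, x 1, -(x 2), x 3] (by simp [K]; exact ⟨h1, h2, h3, h4, h5, h6⟩)
      (by simp) (by simp; nlinarith)
    simp at this
    rcases this with h | h <;> linarith
  -- step 3: h = 2 z
  have hf1 : -(x 1) + 2 * x 2 ≤ 0 := by
    by_contra hne
    push Not at hne
    have := key !₂[0, x 1, x 2, x 3] (by simp [K]; exact ⟨h3, h4, h5, h6⟩)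
      (by simp) (by simp; positivity)
    simp at this
    rcases this with h | h <;> linarith
  have hf2 : 0 ≤ -(x 1) + 2 * x 2 := by
    by_contra hne
    push Not at hne
    have := key !₂[1, x 1, x 2, x 3] (by simp [K]; exact ⟨h3, h4, h5, h6⟩)
      (by simp) (by simp; nlinarith)
    simp at this
    rcases this with h | h <;> linarith
  have hh : x 1 = 2 * x 2 := by linarith
  rcases hz.lt_or_eq with hz | hz
  · have := key !₂[x 0, x 2 / 2, 2 * x 2, 4 * (x 2) ^ 2]
      (by simp [K]; refine ⟨h1, h2, by positivity, by linarith, by nlinarith, by nlinarith⟩)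
      (by simp [hh, hw]; nlinarith) (by simp [hh]; nlinarith)
    simp [hh, hw] at this
    nlinarith [this.2]
  · have := key !₂[x 0, 1, 0, 0]
      (by simp [K]; exact ⟨h1, h2⟩)
      (by simp [hw, ← hz, hh]) (by simp [hh, ← hz]; nlinarith)
    simp [hh, ← hz, hw] at this
    linarith

lemma memA : (!₂[1, 0, 0, 0] : E 4) ∈ Sol K F := by
  refine ⟨by simp [K], fun y hy hcon => ?_⟩
  obtain ⟨h1, h2, h3, h4, h5, h6⟩ := hy
  obtain ⟨hall, l, hl⟩ := hcon
  have h0 := hall 0
  rw [inner_F0] at h0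
  simp at h0
  have hy3 : y 3 = 0 := by nlinarith [sq_nonneg (y 2)]
  have hy2 : y 2 = 0 := by nlinarith [sq_nonneg (y 2)]
  fin_cases l
  · apply hl
    show inner ℝ (F 0 _) _ = 0
    rw [inner_F0]
    simp [hy3]
  · apply hl
    show inner ℝ (F 1 _) _ = 0
    rw [inner_F1]
    simp [hy2]

lemma memB : (!₂[0, 1, 1, 1] : E 4) ∈ Sol K F := by
  refine ⟨by simp [K], fun y hy hcon => ?_⟩
  obtain ⟨h1, h2, h3, h4, h5, h6⟩ := hy
  obtain ⟨hall, l, hl⟩ := hcon
  have h0 := hall 1
  rw [inner_F1] at h0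
  simp at h0
  have hz : y 2 ≤ 1 := by nlinarith
  have e0 : y 0 = 0 := by linarith
  have e1 : y 1 = 1 := by linarith
  have e2 : y 2 = 1 := by linarith
  have e3 : y 3 = 1 := by nlinarith
  fin_cases l
  · apply hl
    show inner ℝ (F 0 _) _ = 0
    rw [inner_F0]
    simp [e1, e3]
  · apply hl
    show inner ℝ (F 1 _) _ = 0
    rw [inner_F1]
    simp [e0, e1, e2]

/-- There are a nonempty compact convex set `K` in `ℝ⁴` and two continuous monotone maps `F₁, F₂`
such that the Pareto solution set of the vector variational inequality is bounded and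
disconnected. -/
theorem result : ∃ (K : Set (E 4)) (F : Fin 2 → E 4 → E 4),
    K.Nonempty ∧ IsClosed K ∧ IsCompact K ∧ Convex ℝ K ∧
    (∀ l, Continuous (F l)) ∧ (∀ l, MonoOn K (F l)) ∧
    (Sol K F).Nonempty ∧ ¬ IsPreconnected (Sol K F) ∧ Bornology.IsBounded (Sol K F) := by
  refine ⟨K, F, ⟨_, memA.1⟩, K_closed, K_compact, K_convex, F_cont, F_mono, ⟨_, memA⟩, ?_,
    K_bounded.subset fun x hx => hx.1⟩
  intro hconn
  have hc : Continuous (fun x : E 4 => x 0) := by fun_prop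
  have him := (hconn.image _ hc.continuousOn).ordConnected
  have h0 : (0 : ℝ) ∈ (fun x : E 4 => x 0) '' (Sol K F) := ⟨_, memB, by simp⟩
  have h1 : (1 : ℝ) ∈ (fun x : E 4 => x 0) '' (Sol K F) := ⟨_, memA, by simp⟩
  obtain ⟨x, hx, hx0⟩ := him.out h0 h1 (show (1 / 2 : ℝ) ∈ Set.Icc 0 1 by constructor <;> norm_num)
  simp only at hx0
  exact not_sol hx ⟨by rw [hx0]; norm_num, by rw [hx0]; norm_num⟩

end Pool.Agent.Results.MP_177738_an.BoundedDisconnected
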